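import Mathlib
import Pool.Agent.W188.MZ.All

/-!
# Moments of zeta of all real orders and the values on finitely many lines

Let `p > 0` be real, `u ≠ 0`, and let `D p u N S T` be the sum of `|ζ(1/2 + it)|^p` over the heights `S < t ≤ T`
(`t > 100`) at which `ζ(1/2 + it)` is a nonzero point of one of the `N` lines `u e^{πij/N} ℝ`.

* Two perpendicular lines: in all intervals `[a, b]` at height about `T` the discrete moment and `log T` times the
  integral of `|ζ|^p` have the same order of magnitude, up to a margin `2 log T` at the ends (all `p > 0`).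
* `N` lines: `(2π/N) D p u N a b` differs from `∫_a^b |ζ|^p log(t/2π) dt` at most by a constant times
  `log T (N^{-min(1,p)} + 1/T)` times the integral of `|ζ|^p`, and local moments at the ends.
* The asymptotic formula for the moment of any real order holds if and only if the discrete moments over many lines
  have the corresponding limits approximately.

Parts were formalized by the team (see the imported files), plan and assembly by helper188.
-/

set_option autoImplicit false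

open Filter Topology Set MeasureTheory

namespace Pool.Agent.Results.MP_973905_nt.AllRealOrders

/-- The value `ζ(1/2 + it)`. -/
noncomputable def z (t : ℝ) : ℂ := riemannZeta (1 / 2 + t * Complex.I)

/-- The heights `t > 100` at which `ζ(1/2 + it)` is a nonzero point of one of the `N` lines `u e^{πij/N} ℝ`. -/
def Pts (u : ℂ) (N : ℕ) : Set ℝ :=
  {t | 100 < t ∧ ∃ (j : ℕ) (r : ℝ), r ≠ 0 ∧ z t = r * (u * Complex.exp (Real.pi * Complex.I * j / N))}

/-- The sum of `|ζ(1/2 + it)|^p` over the heights `S < t ≤ T` in `Pts u N`. -/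
noncomputable def D (p : ℝ) (u : ℂ) (N : ℕ) (S T : ℝ) : ℝ := ∑ᶠ t ∈ Pts u N ∩ Ioc S T, ‖z t‖ ^ p

open Pool.Agent.W188.QS Pool.Agent.W188.GP Pool.Agent.W188.MZ

lemma z_eq (t : ℝ) : z t = riemannZeta (cp t) := rfl

/-- the number `c` that belongs to the direction `u` -/
noncomputable def cc (u : ℂ) (N : ℕ) : ℂ := ((u / (‖u‖ : ℂ))⁻¹) ^ (2 * N)

lemma cc_norm {u : ℂ} (hu : u ≠ 0) (N : ℕ) : ‖cc u N‖ = 1 := by
  have h : ‖u‖ ≠ 0 := norm_ne_zero_iff.2 hu
  unfold cc
  rw [norm_pow, norm_inv, norm_div, Complex.norm_real, norm_norm, div_self h]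
  simp

/-- points on the critical line with `w = 1`, in terms of `ζ` -/
lemma ww_iff {c : ℂ} {N : ℕ} {t : ℝ} (ht : 1 ≤ t) (hz : z t ≠ 0) :
    ww c N (cp t) = 1 ↔ c * z t ^ (2 * N) = ((‖z t‖ ^ (2 * N) : ℝ) : ℂ) := by
  have hX : ‖XX (cp t)‖ = 1 := a_line.2.1 t
  have hX0 : XX (cp t) ≠ 0 := by
    intro h
    rw [h] at hX
    simp at hX
  have hfe : (starRingEnd ℂ) (z t) = XX (cp t) * z t := a_line.2.2.1 t ht
  have h1 : ((‖z t‖ ^ (2 * N) : ℝ) : ℂ) = XX (cp t) ^ N * z t ^ (2 * N) := by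
    have h2 : ((‖z t‖ ^ 2 : ℝ) : ℂ) = XX (cp t) * z t ^ 2 := by
      have h3 := Complex.mul_conj (z t)
      rw [hfe, Complex.normSq_eq_norm_sq] at h3
      rw [← h3]; ring
    rw [pow_mul, Complex.ofReal_pow, h2, mul_pow, pow_mul]
  rw [h1]
  have hz2 : z t ^ (2 * N) ≠ 0 := pow_ne_zero _ hz
  unfold ww
  rw [inv_pow]
  constructor
  · intro h
    have h2 : c = XX (cp t) ^ N := by
      have := congrArg (fun x => x * XX (cp t) ^ N) h
      simp only [one_mul] at this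
      rw [mul_assoc, inv_mul_cancel₀ (pow_ne_zero _ hX0), mul_one] at this
      exact this
    rw [h2]
  · intro h
    have h2 : c = XX (cp t) ^ N := mul_right_cancel₀ hz2 h
    rw [h2]
    exact mul_inv_cancel₀ (pow_ne_zero _ hX0)

/-- the algebraic description of the `N` lines -/
lemma line_iff {u x : ℂ} {N : ℕ} (hu : u ≠ 0) (hN : 1 ≤ N) (hx : x ≠ 0) :
    cc u N * x ^ (2 * N) = ((‖x‖ ^ (2 * N) : ℝ) : ℂ) ↔
      ∃ (j : ℕ) (r : ℝ), r ≠ 0 ∧ x = r * (u * Complex.exp (Real.pi * Complex.I * j / N)) := by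
  have hu0 : ‖u‖ ≠ 0 := norm_ne_zero_iff.2 hu
  have hx0 : ‖x‖ ≠ 0 := norm_ne_zero_iff.2 hx
  have hu1 : (‖u‖ : ℂ) ≠ 0 := by exact_mod_cast hu0
  have hx1 : (‖x‖ : ℂ) ≠ 0 := by exact_mod_cast hx0
  have hN0 : (N : ℂ) ≠ 0 := by
    have : N ≠ 0 := by omega
    exact_mod_cast this
  set v : ℂ := (u / (‖u‖ : ℂ))⁻¹ * (x / (‖x‖ : ℂ)) with hv
  have hv1 : cc u N * x ^ (2 * N) = v ^ (2 * N) * ((‖x‖ ^ (2 * N) : ℝ) : ℂ) := by
    rw [hv, cc, mul_pow, div_pow]
    push_cast
    field_simp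
  have hX0 : ((‖x‖ ^ (2 * N) : ℝ) : ℂ) ≠ 0 := by
    push_cast
    exact pow_ne_zero _ hx1
  have hxv : x = ((‖x‖ / ‖u‖ : ℝ) : ℂ) * (u * v) := by
    rw [hv]
    push_cast
    field_simp
  constructor
  · intro h
    rw [hv1] at h
    have h1 : v ^ (2 * N) = 1 := by
      have h2 : v ^ (2 * N) * ((‖x‖ ^ (2 * N) : ℝ) : ℂ) = 1 * ((‖x‖ ^ (2 * N) : ℝ) : ℂ) := by
        rw [h, one_mul]
      exact mul_right_cancel₀ hX0 h2
    have h2N : 2 * N ≠ 0 := by omega
    have : NeZero (2 * N) := ⟨h2N⟩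
    obtain ⟨j, hj, hj2⟩ := (Complex.isPrimitiveRoot_exp (2 * N) h2N).eq_pow_of_pow_eq_one h1
    refine ⟨j, ‖x‖ / ‖u‖, div_ne_zero hx0 hu0, ?_⟩
    have e1 : Complex.exp (Real.pi * Complex.I * j / N) = v := by
      rw [← hj2, ← Complex.exp_nat_mul]
      congr 1
      push_cast
      field_simp
    rw [e1]
    exact hxv
  · rintro ⟨j, r, hr, hxr⟩
    have hE : Complex.exp (Real.pi * Complex.I * j / N) ^ (2 * N) = 1 := by
      rw [← Complex.exp_nat_mul]
      have : ((2 * N : ℕ) : ℂ) * (Real.pi * Complex.I * j / N) = (j : ℤ) * (2 * Real.pi * Complex.I) := by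
        push_cast
        field_simp
      rw [this, Complex.exp_int_mul_two_pi_mul_I]
    have hEn : ‖Complex.exp (Real.pi * Complex.I * j / N)‖ = 1 := by
      have e : (Real.pi * Complex.I * j / N : ℂ) = ((Real.pi * j / N : ℝ) : ℂ) * Complex.I := by
        push_cast; ring
      rw [e, Complex.norm_exp_ofReal_mul_I]
    have hxn : ‖x‖ = |r| * ‖u‖ := by
      rw [hxr, norm_mul, norm_mul, hEn, Complex.norm_real, Real.norm_eq_abs, mul_one]
    have h4 : ((‖x‖ ^ (2 * N) : ℝ) : ℂ) = (r : ℂ) ^ (2 * N) * (‖u‖ : ℂ) ^ (2 * N) := by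
      rw [hxn, mul_pow, pow_mul |r|, sq_abs, ← pow_mul]
      push_cast
      ring
    rw [h4, cc, hxr]
    set E := Complex.exp (Real.pi * Complex.I * j / N)
    have : ((u / (‖u‖ : ℂ))⁻¹) ^ (2 * N) * ((r : ℂ) * (u * E)) ^ (2 * N) =
        (r : ℂ) ^ (2 * N) * (‖u‖ : ℂ) ^ (2 * N) * E ^ (2 * N) := by
      rw [inv_div, ← mul_pow, ← mul_pow, ← mul_pow]
      congr 1
      field_simp
    rw [this, hE, mul_one]

lemma Pts_iff {u : ℂ} {N : ℕ} (hu : u ≠ 0) (hN : 1 ≤ N) {t : ℝ} (hz : z t ≠ 0) :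
    t ∈ Pts u N ↔ t ∈ PP (cc u N) N := by
  constructor
  · rintro ⟨h1, h2⟩
    exact ⟨h1, (ww_iff (by linarith) hz).2 ((line_iff hu hN hz).2 h2)⟩
  · rintro ⟨h1, h2⟩
    exact ⟨h1, (line_iff hu hN hz).1 ((ww_iff (by linarith) hz).1 h2)⟩

lemma Pts_ne {u : ℂ} {N : ℕ} (hu : u ≠ 0) {t : ℝ} (h : t ∈ Pts u N) : z t ≠ 0 := by
  obtain ⟨-, j, r, hr, h2⟩ := h
  rw [h2]
  refine mul_ne_zero (by exact_mod_cast hr) (mul_ne_zero hu (Complex.exp_ne_zero _))

/-- sums over `Pts` and over `PP` -/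
lemma sum_eq {u : ℂ} {N : ℕ} (hu : u ≠ 0) (hN : 1 ≤ N) (U : Set ℝ) (f : ℝ → ℝ)
    (hf : ∀ t, z t = 0 → f t = 0) :
    ∑ᶠ t ∈ Pts u N ∩ U, f t = ∑ᶠ t ∈ PP (cc u N) N ∩ U, f t := by
  apply finsum_mem_inter_support_eq
  ext t
  simp only [mem_inter_iff, Function.mem_support]
  constructor
  · rintro ⟨⟨h1, h2⟩, h3⟩
    have hz : z t ≠ 0 := fun h => h3 (hf t h)
    exact ⟨⟨(Pts_iff hu hN hz).1 h1, h2⟩, h3⟩
  · rintro ⟨⟨h1, h2⟩, h3⟩
    have hz : z t ≠ 0 := fun h => h3 (hf t h)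
    exact ⟨⟨(Pts_iff hu hN hz).2 h1, h2⟩, h3⟩

lemma ZZ_z (t : ℝ) : ‖z t‖ = ZZ t := rfl

lemma cc_pow (u : ℂ) (N : ℕ) : cc u N = (cc u 1) ^ N := by
  unfold cc
  rw [mul_one, ← pow_mul]

/-- the discrete moments in terms of the nodes -/
lemma D_eq {u : ℂ} (hu : u ≠ 0) : ∃ γ : ℝ, ∀ (p : ℝ) (N : ℕ) (a b : ℝ), 0 < p → 1 ≤ N → 100 ≤ a → a ≤ b →
    D p u N a b = ∑ j ∈ Finset.range N, DD p (γ + j / N) a b ∧ (Pts u N ∩ Ioc a b).Finite := by
  obtain ⟨γ, hγ⟩ := pts_uniform a_tau a_line (cc_norm hu 1)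
  refine ⟨γ, fun p N a b hp hN ha hab => ?_⟩
  obtain ⟨h1, h2⟩ := hγ N hN (fun t => ZZ t ^ p) a b ha hab
  rw [← cc_pow] at h1 h2
  constructor
  · unfold D
    rw [sum_eq hu hN (Ioc a b) (fun t => ‖z t‖ ^ p) (fun t ht => by
      rw [ht, norm_zero, Real.zero_rpow hp.ne'])]
    exact h2
  · refine h1.subset ?_
    rintro t ⟨h3, h4⟩
    exact ⟨(Pts_iff hu hN (Pts_ne hu h3)).1 h3, h4⟩

lemma D_two {u : ℂ} {p γ a b : ℝ} (h : D p u 2 a b = ∑ j ∈ Finset.range 2, DD p (γ + j / (2 : ℕ)) a b) :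
    D p u 2 a b = DD2 p γ a b := by
  rw [h, Finset.sum_range_succ, Finset.sum_range_one]
  unfold DD2
  simp

lemma log_small : ∀ᶠ T : ℝ in atTop, 8 * Real.log T + 200 ≤ T / 2 := by
  have h1 := (isLittleO_log_rpow_rpow_atTop 1 (by norm_num : (0 : ℝ) < 1)).bound
    (by norm_num : (0 : ℝ) < 1 / 32)
  filter_upwards [h1, eventually_ge_atTop 800] with T h2 h3
  rw [Real.rpow_one, Real.rpow_one, Real.norm_of_nonneg (Real.log_nonneg (by linarith)),
    Real.norm_of_nonneg (by linarith)] at h2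
  linarith

lemma ZZp_cont {p : ℝ} (hp : 0 < p) : Continuous fun t : ℝ => ZZ t ^ p := by
  have h1 : Continuous ZZ := by
    have := Zk_cont 1
    have h2 : ZZ = fun t => √(Zk 1 t) := by
      funext t
      unfold Zk ZZ
      rw [mul_one, Real.sqrt_sq (norm_nonneg _)]
    rw [h2]
    exact this.sqrt
  exact h1.rpow_const (fun _ => Or.inr hp.le)

lemma ZZp_nonneg (p t : ℝ) : 0 ≤ ZZ t ^ p := Real.rpow_nonneg (norm_nonneg _) _

lemma DD_nonneg (p γ a b : ℝ) : 0 ≤ DD p γ a b := Finset.sum_nonneg fun _ _ => ZZp_nonneg _ _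

theorem result :
    -- the sets of points are locally finite
    (∀ (u : ℂ) (N : ℕ) (a b : ℝ), u ≠ 0 → 1 ≤ N → 100 ≤ a → a ≤ b → (Pts u N ∩ Ioc a b).Finite) ∧
    -- comparison in all intervals: two perpendicular lines, and any number of lines
    (∀ p : ℝ, 0 < p → ∃ C T₀ : ℝ, 0 < C ∧ ∀ (u : ℂ) (T a b : ℝ), u ≠ 0 → T₀ ≤ T → T / 2 ≤ a → a ≤ b →
      b ≤ 16 * T →
      Real.log T * (∫ t in a..b, ‖z t‖ ^ p) ≤
        C * (D p u 2 (a - 2 * Real.log T) (b + 2 * Real.log T) + (b - a + 1) * T ^ (-(p / 3))) ∧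
      ∀ N : ℕ, 1 ≤ N → D p u N a b ≤
        C * N * (Real.log T * (∫ t in (a - 2 * Real.log T)..(b + 2 * Real.log T), ‖z t‖ ^ p) +
          (b - a + 1) * T ^ (-(p / 3)))) ∧
    -- approximation by `N` lines
    (∀ p : ℝ, 0 < p → ∃ C T₀ : ℝ, 0 < C ∧ ∀ (u : ℂ) (T a b : ℝ) (N : ℕ), u ≠ 0 → T₀ ≤ T → T ≤ a → a ≤ b →
      b ≤ 8 * T → 1 ≤ N →
      |2 * Real.pi / N * D p u N a b - ∫ t in a..b, ‖z t‖ ^ p * Real.log (t / (2 * Real.pi))| ≤
        C * (Real.log T * (((N : ℝ) ^ (-(min 1 p)) + 1 / T) *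
            (∫ t in (a - 4 * Real.log T)..(b + 4 * Real.log T), ‖z t‖ ^ p) +
          (∫ t in (a - 4 * Real.log T)..(a + 4 * Real.log T), ‖z t‖ ^ p) +
          ∫ t in (b - 4 * Real.log T)..(b + 4 * Real.log T), ‖z t‖ ^ p) + (b - a + 1) * T ^ (-(p / 4)))) ∧
    -- equivalence of the asymptotic formulas, all real orders `2k`
    (∀ (k x : ℝ) (u : ℂ), 0 < k → u ≠ 0 →
      (Tendsto (fun T : ℝ => T⁻¹ * (∫ t in (0 : ℝ)..T, ‖z t‖ ^ (2 * k)) / Real.log T ^ (k ^ 2)) atTop (𝓝 x) ↔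
        ∀ ε : ℝ, 0 < ε → ∃ M₀ : ℕ, ∀ M : ℕ, M₀ ≤ M → ∀ᶠ T : ℝ in atTop,
          |Real.pi / M * D (2 * k) u (2 * M) 100 T / (T * Real.log T ^ (k ^ 2 + 1)) - x| ≤ ε)) := by
  refine ⟨fun u N a b hu hN ha hab => ?_, fun p hp => ?_, fun p hp => ?_, fun k x u hk hu => ?_⟩
  · obtain ⟨γ, hγ⟩ := D_eq hu
    exact (hγ 1 N a b one_pos hN ha hab).2
  · obtain ⟨C, T₀, hC, h⟩ := a_cmp p hp
    obtain ⟨T₁, hT₁⟩ := eventually_atTop.1 log_small
    refine ⟨C, max (max T₀ T₁) 400, hC, fun u T a b hu hT ha hab hb => ?_⟩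
    have h1 : T₀ ≤ T := ((le_max_left _ _).trans (le_max_left _ _)).trans hT
    have h2 := hT₁ T (((le_max_right _ _).trans (le_max_left _ _)).trans hT)
    have h3 : 400 ≤ T := (le_max_right _ _).trans hT
    have hL : 0 ≤ Real.log T := Real.log_nonneg (by linarith)
    obtain ⟨γ, hγ⟩ := D_eq hu
    constructor
    · rw [D_two (hγ p 2 (a - 2 * Real.log T) (b + 2 * Real.log T) hp (by norm_num) (by linarith)
        (by linarith)).1]
      exact (h T γ a b h1 ha hab hb).1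
    · intro N hN
      rw [(hγ p N a b hp hN (by linarith) hab).1]
      calc ∑ j ∈ Finset.range N, DD p (γ + j / N) a b
          ≤ ∑ _j ∈ Finset.range N, C * (Real.log T *
              (∫ t in (a - 2 * Real.log T)..(b + 2 * Real.log T), ZZ t ^ p) +
              (b - a + 1) * T ^ (-(p / 3))) :=
            Finset.sum_le_sum fun j _ => (h T (γ + j / N) a b h1 ha hab hb).2
        _ = _ := by
            rw [Finset.sum_const, Finset.card_range, nsmul_eq_mul]
            simp only [ZZ_z]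
            ring
  · obtain ⟨C, T₀, hC, h⟩ := a_avn p hp
    obtain ⟨T₁, hT₁⟩ := eventually_atTop.1 log_small
    refine ⟨2 * Real.pi * C + 14, max (max T₀ T₁) 400, by positivity, fun u T a b N hu hT ha hab hb hN => ?_⟩
    have h1 : T₀ ≤ T := ((le_max_left _ _).trans (le_max_left _ _)).trans hT
    have h2 := hT₁ T (((le_max_right _ _).trans (le_max_left _ _)).trans hT)
    have h3 : 400 ≤ T := (le_max_right _ _).trans hT
    have hT0 : 0 < T := by linarith
    have hL1 : 1 ≤ Real.log T := by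
      rw [Real.le_log_iff_exp_le hT0]
      have := Real.exp_one_lt_d9
      linarith
    obtain ⟨γ, hγ⟩ := D_eq hu
    have h4 := h T γ a b N h1 ha hab hb hN
    rw [← (hγ p N a b hp hN (by linarith) hab).1] at h4
    obtain ⟨-, -, hlc, -, -, -, -, -, -, -, -, hlam, -⟩ := a_tau
    have hN0 : (0 : ℝ) < N := by exact_mod_cast hN
    have hc1 := ZZp_cont hp
    have hcl : ContinuousOn (fun t : ℝ => ZZ t ^ p * Real.log (t / (2 * Real.pi))) (uIcc a b) := by
      rw [uIcc_of_le hab]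
      apply hc1.continuousOn.mul
      apply ContinuousOn.log (by fun_prop)
      intro t ht
      have : 0 < t := by linarith [ht.1]
      positivity
    have h5 : |(∫ t in a..b, ZZ t ^ p * lamE t) - ∫ t in a..b, ZZ t ^ p * Real.log (t / (2 * Real.pi))| ≤
        14 / T * ∫ t in a..b, ZZ t ^ p := by
      have hcv : Continuous fun t : ℝ => ZZ t ^ p * lamE t := hc1.mul hlc
      rw [← intervalIntegral.integral_sub (hcv.intervalIntegrable _ _) hcl.intervalIntegrable,
        ← intervalIntegral.integral_const_mul]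
      apply intervalIntegral.abs_integral_le_integral_abs hab |>.trans
      apply intervalIntegral.integral_mono_on hab
      · exact ((hcv.continuousOn.sub hcl).abs).intervalIntegrable
      · exact (continuous_const.mul hc1).intervalIntegrable _ _
      · intro t ht
        have h6 := (a_line.1 t (by linarith [ht.1])).2.1
        have h7 := (hlam t (by linarith [ht.1])).1
        rw [← mul_sub, abs_mul, abs_of_nonneg (ZZp_nonneg p t), h7, mul_comm]
        apply mul_le_mul_of_nonneg_right _ (ZZp_nonneg p t)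
        refine h6.trans ?_
        apply div_le_div_of_nonneg_left (by norm_num) hT0 (by linarith [ht.1])
    have hint : ∀ c d : ℝ, c ≤ d → 0 ≤ ∫ t in c..d, ZZ t ^ p := fun c d hcd =>
      intervalIntegral.integral_nonneg hcd (fun t _ => ZZp_nonneg p t)
    have h6 : ∫ t in a..b, ZZ t ^ p ≤ ∫ t in (a - 4 * Real.log T)..(b + 4 * Real.log T), ZZ t ^ p := by
      apply intervalIntegral.integral_mono_interval (by linarith) hab (by linarith)
      · exact Filter.Eventually.of_forall fun t => ZZp_nonneg p t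
      · exact hc1.intervalIntegrable _ _
    simp only [ZZ_z]
    unfold Err at h4
    set J := ∫ t in (a - 4 * Real.log T)..(b + 4 * Real.log T), ZZ t ^ p with hJ
    set J1 := ∫ t in (a - 4 * Real.log T)..(a + 4 * Real.log T), ZZ t ^ p with hJ1
    set J2 := ∫ t in (b - 4 * Real.log T)..(b + 4 * Real.log T), ZZ t ^ p with hJ2
    set V := ∫ t in a..b, ZZ t ^ p * lamE t with hV
    set W := ∫ t in a..b, ZZ t ^ p * Real.log (t / (2 * Real.pi)) with hW
    set R := (b - a + 1) * T ^ (-(p / 4)) with hR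
    have hR0 : 0 ≤ R := by
      rw [hR]
      have : 0 ≤ b - a + 1 := by linarith
      positivity
    have hJ0 : 0 ≤ J := hint _ _ (by linarith)
    have hJ10 : 0 ≤ J1 := hint _ _ (by linarith)
    have hJ20 : 0 ≤ J2 := hint _ _ (by linarith)
    have hNp : 0 ≤ (N : ℝ) ^ (-(min 1 p)) := by positivity
    have h7 : |2 * Real.pi / N * D p u N a b - V| ≤
        2 * Real.pi * (C * (Real.log T * ((N : ℝ) ^ (-(min 1 p)) * J + J1 + J2) + R)) := by
      have e : 2 * Real.pi / N * D p u N a b - V =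
          2 * Real.pi * (1 / (N : ℝ) * D p u N a b - 1 / (2 * Real.pi) * V) := by
        field_simp
      rw [e, abs_mul, abs_of_pos (by positivity : 0 < 2 * Real.pi)]
      exact mul_le_mul_of_nonneg_left h4 (by positivity)
    have h8 : |2 * Real.pi / N * D p u N a b - W| ≤ |2 * Real.pi / N * D p u N a b - V| + |V - W| :=
      abs_sub_le _ _ _
    have h9 : 14 / T * (∫ t in a..b, ZZ t ^ p) ≤ 14 * (Real.log T * (1 / T * J)) := by
      calc 14 / T * (∫ t in a..b, ZZ t ^ p) ≤ 14 / T * J := mul_le_mul_of_nonneg_left h6 (by positivity)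
        _ = 14 * (1 * (1 / T * J)) := by ring
        _ ≤ 14 * (Real.log T * (1 / T * J)) := by gcongr
    have h10 : 0 ≤ Real.log T * (1 / T * J) := by positivity
    have h11 : 0 ≤ Real.log T * ((N : ℝ) ^ (-(min 1 p)) * J + J1 + J2) := by positivity
    have hpC : 0 ≤ 2 * Real.pi * C := by positivity
    calc |2 * Real.pi / N * D p u N a b - W|
        ≤ 2 * Real.pi * (C * (Real.log T * ((N : ℝ) ^ (-(min 1 p)) * J + J1 + J2) + R)) +
          14 * (Real.log T * (1 / T * J)) := h8.trans (add_le_add h7 (h5.trans h9))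
      _ = 2 * Real.pi * C * (Real.log T * ((N : ℝ) ^ (-(min 1 p)) * J + J1 + J2)) + 2 * Real.pi * C * R +
          14 * (Real.log T * (1 / T * J)) := by ring
      _ ≤ (2 * Real.pi * C + 14) * (Real.log T * ((N : ℝ) ^ (-(min 1 p)) * J + J1 + J2)) +
          (2 * Real.pi * C + 14) * R + (2 * Real.pi * C + 14) * (Real.log T * (1 / T * J)) := by
          nlinarith [mul_nonneg hpC h10]
      _ = _ := by ring
  · obtain ⟨γ, hγ⟩ := D_eq hu
    have h := a_eqv (2 * k) (k ^ 2) x γ (by linarith) (by positivity)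
    have e1 : (fun T : ℝ => T⁻¹ * (∫ t in (0 : ℝ)..T, ‖z t‖ ^ (2 * k)) / Real.log T ^ (k ^ 2)) =
        fun T : ℝ => (∫ t in (0 : ℝ)..T, ZZ t ^ (2 * k)) / (T * Real.log T ^ (k ^ 2)) := by
      funext T
      simp only [ZZ_z]
      rw [div_mul_eq_div_div, ← div_eq_inv_mul]
    rw [e1, h]
    have key : ∀ M : ℕ, 1 ≤ M → ∀ T : ℝ, 100 ≤ T →
        D (2 * k) u (2 * M) 100 T = ∑ j ∈ Finset.range (2 * M), DD (2 * k) (γ + j / (2 * M : ℕ)) 100 T :=
      fun M hM T hT => (hγ (2 * k) (2 * M) 100 T (by linarith) (by omega) le_rfl hT).1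
    constructor
    · intro h1 ε hε
      obtain ⟨M₀, h2⟩ := h1 ε hε
      refine ⟨max M₀ 1, fun M hM => ?_⟩
      filter_upwards [h2 M ((le_max_left _ _).trans hM), eventually_ge_atTop 100] with T h3 h4
      rw [key M ((le_max_right _ _).trans hM) T h4]
      exact h3
    · intro h1 ε hε
      obtain ⟨M₀, h2⟩ := h1 ε hε
      refine ⟨max M₀ 1, fun M hM => ?_⟩
      filter_upwards [h2 M ((le_max_left _ _).trans hM), eventually_ge_atTop 100] with T h3 h4
      rw [key M ((le_max_right _ _).trans hM) T h4] at h3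
      exact h3

end Pool.Agent.Results.MP_973905_nt.AllRealOrders
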